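import Pool.Agent.H33.IW.Twist

/-!
# Two characteristic ideals over the Iwasawa algebra with a functional equation
-/

set_option autoImplicit false

namespace Pool.Agent.Results.MP_ffe9ba_nt.DoubledGap

open PowerSeries Pool.Agent.X308.Iw Pool.Agent.H33.IW

universe u

/-- The doubled gap theorem, see the claim file. -/
theorem result (p : ℕ) [Fact p.Prime] :
    -- the involution
    ((∀ g : Iwasawa p, iota p (iota p g) = g) ∧ iota p (1 + X) * (1 + X) = 1) ∧
    -- the functional equation of a quotient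
    (∀ f L g h : Iwasawa p, g ≠ 0 → Ideal.span {L * g} = Ideal.span {f * h} →
      Ideal.span {iota p g} = Ideal.span {g} → Ideal.span {iota p h} = Ideal.span {h} →
      Ideal.span {f * iota p L} = Ideal.span {L * iota p f}) ∧
    -- the criteria for modules
    (∀ (M N : Type u) [AddCommGroup M] [Module (Iwasawa p) M] [AddCommGroup N]
      [Module (Iwasawa p) N] (f L : Iwasawa p), HasChar p M f → HasChar p N L → f ∣ L →
      Ideal.span {f * iota p L} = Ideal.span {L * iota p f} →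
      (∀ n : ℕ, Finite (Quo p N (om p n)) →
        Finite (Quo p M (om p n)) ∧ Finite (Ker p M (om p n)) ∧ Finite (Ker p N (om p n)) ∧
        (Ideal.span {f} = Ideal.span {L} ↔
          Nat.card (Quo p N (om p n)) * Nat.card (Ker p M (om p n)) <
            p ^ (gapExp p n) * (Nat.card (Quo p M (om p n)) * Nat.card (Ker p N (om p n))))) ∧
      (EvenQuot p f L → ∀ S : Finset ℕ, (p = 2 → 0 ∉ S) →
        Finite (Quo p N (∏ n ∈ S, ph p n)) →
        Finite (Quo p M (∏ n ∈ S, ph p n)) ∧ Finite (Ker p M (∏ n ∈ S, ph p n)) ∧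
        Finite (Ker p N (∏ n ∈ S, ph p n)) ∧
        (∃ k : ℕ, Nat.card (Quo p N (∏ n ∈ S, ph p n)) * Nat.card (Ker p M (∏ n ∈ S, ph p n)) =
          p ^ (2 * k) *
            (Nat.card (Quo p M (∏ n ∈ S, ph p n)) * Nat.card (Ker p N (∏ n ∈ S, ph p n)))) ∧
        (S.Nonempty → (Ideal.span {f} = Ideal.span {L} ↔
          Nat.card (Quo p N (∏ n ∈ S, ph p n)) * Nat.card (Ker p M (∏ n ∈ S, ph p n)) <
            p ^ (2 * S.card) *
              (Nat.card (Quo p M (∏ n ∈ S, ph p n)) *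
                Nat.card (Ker p N (∏ n ∈ S, ph p n)))))) ∧
      (EvenQuot p f L → ∀ (c : ℤ_[p]) (n : ℕ), (p : ℤ_[p]) ∣ c - 1 →
        Finite (Quo p N (omega p c n)) →
        Finite (Quo p M (omega p c n)) ∧ Finite (Ker p M (omega p c n)) ∧
        Finite (Ker p N (omega p c n)) ∧
        (Ideal.span {f} = Ideal.span {L} ↔
          Nat.card (Quo p N (omega p c n)) * Nat.card (Ker p M (omega p c n)) <
            p ^ (twExp p n) *
              (Nat.card (Quo p M (omega p c n)) * Nat.card (Ker p N (omega p c n)))))) ∧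
    -- the criterion with the invariants `mu` and `lambda`
    (∀ f L : Iwasawa p, L ≠ 0 → Ideal.span {f * iota p L} = Ideal.span {L * iota p f} →
      EvenQuot p f L → ∀ (m : ℕ) (f1 L1 : Iwasawa p), f = (p : Iwasawa p) ^ m * f1 →
      L = (p : Iwasawa p) ^ m * L1 → ¬ (p : Iwasawa p) ∣ L1 →
      (red L1).order ≤ (red f1).order + 1 → Ideal.span {f} = Ideal.span {L}) ∧
    -- the exponents are optimal
    (∀ L : Iwasawa p, L ≠ 0 → HasChar p (Iwasawa p ⧸ Ideal.span {L}) L) ∧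
    (∀ n : ℕ, ∃ L : Iwasawa p, Ideal.span {iota p L} = Ideal.span {L} ∧ ¬ IsUnit L ∧
      Nat.card (Iwasawa p ⧸ Ideal.span {L, om p n}) = p ^ (gapExp p n)) ∧
    (p ≠ 2 → ∃ L : Iwasawa p, Ideal.span {iota p L} = Ideal.span {L} ∧
      constantCoeff L ≠ 0 ∧ ¬ IsUnit L ∧ ∀ S : Finset ℕ,
        Nat.card (Iwasawa p ⧸ Ideal.span {L, ∏ n ∈ S, ph p n}) = p ^ (2 * S.card)) := by
  refine ⟨⟨iota_iota, by rw [iota_g, gi_mul_g]⟩, ?_, ?_, ?_, fun L hL => hasChar_cyclic hL,
    sharp_all, ?_⟩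
  · intro f L g h hg0 h1 hg hh
    exact cross_of_stable hg0 h1 hg hh
  · intro M N _ _ _ _ f L hM hN hfL hfun
    refine ⟨fun n hfin => ?_, fun hev S hS hfin => ?_, fun hev c n hc hfin => ?_⟩
    · obtain ⟨h1, h2, h3, h4, h5⟩ := mod_iff hM hN hfL (not_p_dvd_om n) hfin
      refine ⟨h2, h3, h4, ?_⟩
      rw [(h5 _).1]
      exact crit_all hfL hfun n h1
    · obtain ⟨h1, h2, h3, h4, h5⟩ := mod_iff hM hN hfL (not_p_dvd_prod S) hfin
      obtain ⟨⟨k, hk⟩, h6⟩ := crit_prod_all hN.1 hev hfun S hS h1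
      refine ⟨h2, h3, h4, ⟨k, (h5 _).2.2 hk⟩, fun hne => ?_⟩
      rw [(h5 _).1]
      exact h6 hne
    · obtain ⟨h1, h2, h3, h4, h5⟩ := mod_iff hM hN hfL (not_dvd_omega hc n) hfin
      refine ⟨h2, h3, h4, ?_⟩
      rw [(h5 _).1]
      exact crit_twist hN.1 hev hfun hc n h1
  · intro f L hL hfun hev m f1 L1 h1 h2 h3 h4
    exact crit_lambda_all hL hev hfun m f1 L1 h1 h2 h3 h4
  · intro hp2
    refine ⟨D0 p, ?_, ?_, not_isUnit_D0, card_D0_prod hp2⟩
    · rw [iota_D0]
      refine Ideal.span_singleton_mul_left_unit ?_ _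
      exact (IsUnit.of_mul_eq_one _ (gi_mul_g p)).pow 2
    · rw [cc_D0]
      exact neg_ne_zero.2 PadicInt.prime_p.ne_zero

end Pool.Agent.Results.MP_ffe9ba_nt.DoubledGap
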